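import Pool.Agent.H95.ESP.Stmts

/-! # Board esp (MP_3ddf05_nt), row CNT: values of a cubic polynomial modulo `p` -/

set_option autoImplicit false

open Finset

namespace ESP

/-- the roots of `x³ + a x + b` -/
def rts {p : ℕ} [Fact p.Prime] (a b : ZMod p) : Finset (ZMod p) :=
  univ.filter (fun x => x ^ 3 + a * x + b = 0)

theorem rts_le {p : ℕ} [Fact p.Prime] (a b : ZMod p) : (rts a b).card ≤ 3 := by
  let P : Polynomial (ZMod p) := Polynomial.X ^ 3 + Polynomial.C a * Polynomial.X + Polynomial.C b
  have hP : P.natDegree = 3 := by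
    show (Polynomial.X ^ 3 + Polynomial.C a * Polynomial.X + Polynomial.C b :
      Polynomial (ZMod p)).natDegree = 3
    compute_degree!
  have hP0 : P ≠ 0 := by
    intro h
    rw [h, Polynomial.natDegree_zero] at hP
    omega
  have hsub : rts a b ⊆ P.roots.toFinset := by
    intro x hx
    rw [Multiset.mem_toFinset, Polynomial.mem_roots hP0, Polynomial.IsRoot.def]
    show Polynomial.eval x (Polynomial.X ^ 3 + Polynomial.C a * Polynomial.X + Polynomial.C b) = 0
    simpa [rts] using hx
  calc (rts a b).card ≤ P.roots.toFinset.card := card_le_card hsub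
    _ ≤ Multiset.card P.roots := Multiset.toFinset_card_le _
    _ ≤ P.natDegree := Polynomial.card_roots' P
    _ = 3 := hP

/-- a set in a field whose members have equal squares has at most two elements -/
theorem two_of_sq {p : ℕ} [Fact p.Prime] (S : Finset (ZMod p))
    (h : ∀ x ∈ S, ∀ y ∈ S, x ^ 2 = y ^ 2) : S.card ≤ 2 := by
  rcases S.eq_empty_or_nonempty with rfl | ⟨x, hx⟩
  · simp
  · have hsub : S ⊆ {x, -x} := by
      intro y hy
      rw [mem_insert, mem_singleton]
      exact sq_eq_sq_iff_eq_or_eq_neg.1 (h y hy x hx)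
    exact (card_le_card hsub).trans card_le_two

theorem ne_zero_of_lt {p : ℕ} [Fact p.Prime] (n : ℕ) (h0 : 0 < n) (h : n < p) :
    (n : ZMod p) ≠ 0 := by
  intro h1
  rw [ZMod.natCast_eq_zero_iff] at h1
  exact absurd (Nat.le_of_dvd h0 h1) (by omega)

theorem CNT_thm (hQCN : S_QCN) : S_CNT := by
  intro p hp hp13 a ha
  classical
  have h3 : (3 : ZMod p) ≠ 0 := by exact_mod_cast ne_zero_of_lt 3 (by norm_num) (by omega)
  have h27 : (27 : ZMod p) ≠ 0 := by
    have : (27 : ZMod p) = 3 ^ 3 := by norm_num
    rw [this]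
    exact pow_ne_zero 3 h3
  let g : ZMod p → ZMod p := fun x => -(x ^ 3 + a * x)
  have hg : ∀ x b : ZMod p, g x = b ↔ x ^ 3 + a * x + b = 0 := by
    intro x b
    show -(x ^ 3 + a * x) = b ↔ _
    constructor
    · intro h
      rw [← h]
      ring
    · intro h
      linear_combination -h
  have hcard : (univ : Finset (ZMod p)).card = p := by
    rw [card_univ, ZMod.card]
  -- the sum of the numbers of roots
  have s1 : ∑ b : ZMod p, (rts a b).card = p := by
    have h := card_eq_sum_card_fiberwise (s := (univ : Finset (ZMod p))) (t := univ) (f := g)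
      (fun x _ => mem_univ _)
    rw [hcard] at h
    conv_rhs => rw [h]
    apply sum_congr rfl
    intro b _
    congr 1
    ext x
    simp only [rts, mem_filter, mem_univ, true_and]
    exact (hg x b).symm
  let PP : Finset (ZMod p × ZMod p) := univ.filter (fun v => g v.1 = g v.2)
  have s2 : PP.card = ∑ b : ZMod p, (rts a b).card ^ 2 := by
    rw [card_eq_sum_card_fiberwise (s := PP) (t := univ) (f := fun v => g v.1)
      (fun x _ => mem_univ _)]
    apply sum_congr rfl
    intro b _
    rw [pow_two, ← card_product]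
    congr 1
    ext v
    simp only [PP, rts, mem_filter, mem_univ, true_and, mem_product]
    rw [← hg, ← hg]
    constructor
    · rintro ⟨h1, h2⟩
      exact ⟨h2, by rw [← h1, h2]⟩
    · rintro ⟨h1, h2⟩
      exact ⟨by rw [h1, h2], h1⟩
  let QQ : Finset (ZMod p × ZMod p) :=
    univ.filter (fun v : ZMod p × ZMod p => v.1 ^ 2 + v.1 * v.2 + v.2 ^ 2 = -a)
  have hQQ : p ≤ QQ.card + 2 := hQCN p (by omega) (-a) (neg_ne_zero.2 ha)
  have hQd : (QQ.filter (fun v => v.1 = v.2)).card ≤ 2 := by
    have h1 : (QQ.filter (fun v => v.1 = v.2)).card =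
        ((QQ.filter (fun v => v.1 = v.2)).image (fun v => v.1)).card := by
      rw [card_image_of_injOn]
      rintro ⟨x, y⟩ hx ⟨x', y'⟩ hx' hxx
      have e1 := (mem_filter.1 (mem_coe.1 hx)).2
      have e2 := (mem_filter.1 (mem_coe.1 hx')).2
      simp only at e1 e2 hxx
      rw [← e1, ← e2, hxx]
    rw [h1]
    apply two_of_sq
    have key : ∀ x ∈ (QQ.filter (fun v => v.1 = v.2)).image (fun v => v.1), 3 * x ^ 2 = -a := by
      intro x hx
      obtain ⟨⟨y, z⟩, hv, rfl⟩ := mem_image.1 hx
      obtain ⟨h1, h2⟩ := mem_filter.1 hv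
      have h3 := (mem_filter.1 h1).2
      simp only at h2 h3 ⊢
      rw [← h2] at h3
      linear_combination h3
    intro x hx y hy
    have h := (key x hx).trans (key y hy).symm
    exact mul_left_cancel₀ h3 h
  have s3 : p + QQ.card ≤ PP.card + 2 := by
    have h1 : (univ.image (fun x : ZMod p => (x, x))) ∪ QQ.filter (fun v => v.1 ≠ v.2) ⊆ PP := by
      intro v hv
      rw [mem_filter]
      refine ⟨mem_univ _, ?_⟩
      rcases mem_union.1 hv with h | h
      · obtain ⟨x, -, rfl⟩ := mem_image.1 h
        rfl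
      · obtain ⟨h2, -⟩ := mem_filter.1 h
        have h3 := (mem_filter.1 h2).2
        show -(v.1 ^ 3 + a * v.1) = -(v.2 ^ 3 + a * v.2)
        linear_combination (v.2 - v.1) * h3
    have h2 : Disjoint (univ.image (fun x : ZMod p => (x, x))) (QQ.filter (fun v => v.1 ≠ v.2)) := by
      rw [disjoint_left]
      intro v hv hv'
      obtain ⟨x, -, rfl⟩ := mem_image.1 hv
      exact (mem_filter.1 hv').2 rfl
    have h3 := card_le_card h1
    rw [card_union_of_disjoint h2, card_image_of_injective _ (fun x y h => (Prod.mk.inj h).1),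
      hcard] at h3
    have h4 := card_filter_add_card_filter_not (s := QQ) (fun v => v.1 = v.2)
    have h5 : (QQ.filter (fun v => ¬ v.1 = v.2)).card = (QQ.filter (fun v => v.1 ≠ v.2)).card := rfl
    omega
  constructor
  · have h1 : ∀ b : ZMod p, 3 + (rts a b).card ^ 2 ≤
        3 * (if ∀ x : ZMod p, x ^ 3 + a * x + b ≠ 0 then 1 else 0) + 4 * (rts a b).card := by
      intro b
      have h2 := rts_le a b
      by_cases h : ∀ x : ZMod p, x ^ 3 + a * x + b ≠ 0
      · rw [if_pos h]
        have h3 : rts a b = ∅ := by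
          rw [eq_empty_iff_forall_notMem]
          intro x hx
          exact h x (mem_filter.1 hx).2
        rw [h3]
        simp
      · rw [if_neg h]
        have h3 : 1 ≤ (rts a b).card := by
          push Not at h
          obtain ⟨x, hx⟩ := h
          exact card_pos.2 ⟨x, mem_filter.2 ⟨mem_univ _, hx⟩⟩
        generalize (rts a b).card = r at *
        interval_cases r <;> norm_num
    have h2 := sum_le_sum fun b (_ : b ∈ (univ : Finset (ZMod p))) => h1 b
    rw [sum_add_distrib, sum_add_distrib, ← mul_sum, ← mul_sum, s1, ← s2, sum_const, hcard,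
      ← card_filter, smul_eq_mul] at h2
    omega
  · have h1 : ∀ b : ZMod p, (rts a b).card ≤
        3 * (if ∃ x : ZMod p, x ^ 3 + a * x + b = 0 then 1 else 0) := by
      intro b
      by_cases h : ∃ x : ZMod p, x ^ 3 + a * x + b = 0
      · rw [if_pos h]
        exact rts_le a b
      · rw [if_neg h]
        have h3 : rts a b = ∅ := by
          rw [eq_empty_iff_forall_notMem]
          intro x hx
          exact h ⟨x, (mem_filter.1 hx).2⟩
        rw [h3]
        simp
    have h2 := sum_le_sum fun b (_ : b ∈ (univ : Finset (ZMod p))) => h1 b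
    rw [← mul_sum, s1, ← card_filter] at h2
    have h4 : (univ.filter (fun b : ZMod p => 4 * a ^ 3 + 27 * b ^ 2 = 0)).card ≤ 2 := by
      apply two_of_sq
      intro x hx y hy
      have e1 := (mem_filter.1 hx).2
      have e2 := (mem_filter.1 hy).2
      have e3 : 27 * x ^ 2 = 27 * y ^ 2 := by linear_combination e1 - e2
      exact mul_left_cancel₀ h27 e3
    have h5 : univ.filter (fun b : ZMod p => ∃ x : ZMod p, x ^ 3 + a * x + b = 0) ⊆
        univ.filter (fun b : ZMod p => 4 * a ^ 3 + 27 * b ^ 2 ≠ 0 ∧
          ∃ x : ZMod p, x ^ 3 + a * x + b = 0) ∪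
        univ.filter (fun b : ZMod p => 4 * a ^ 3 + 27 * b ^ 2 = 0) := by
      intro b hb
      have hb2 := (mem_filter.1 hb).2
      rw [mem_union, mem_filter, mem_filter]
      by_cases h : 4 * a ^ 3 + 27 * b ^ 2 = 0
      · exact Or.inr ⟨mem_univ _, h⟩
      · exact Or.inl ⟨mem_univ _, h, hb2⟩
    have h6 := (card_le_card h5).trans (card_union_le _ _)
    omega

end ESP
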